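import Pool.Agent.J4H61.QB.Stm3

/-! # Project QB (helper61), piece DIAG (helper89): diagonalisation -/

set_option autoImplicit false

open Matrix MeasureTheory
open scoped ComplexOrder ComplexConjugate

namespace Pool.Agent.J4H89.QB

open Pool.Agent.V11219.MomentOp Pool.Agent.J4H61.QB

/-- the Haar measure is right invariant -/
instance right_inv {n : ℕ} : (haarU (Fin n)).IsMulRightInvariant := by
  constructor
  intro g
  have h1 : (Measure.map (· * g) (haarU (Fin n))).IsHaarMeasure := inferInstance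
  have h2 : IsProbabilityMeasure (Measure.map (· * g) (haarU (Fin n))) :=
    Measure.isProbabilityMeasure_map (by fun_prop)
  exact Measure.isHaarMeasure_eq_of_isProbabilityMeasure _ _

/-- the Haar measure is invariant under conjugation -/
theorem int_conj {n : ℕ} (W : Matrix.unitaryGroup (Fin n) ℂ)
    (f : Matrix.unitaryGroup (Fin n) ℂ → ℂ) :
    ∫ U, f (W * U * W⁻¹) ∂(haarU (Fin n)) = ∫ U, f U ∂(haarU (Fin n)) := by
  have h1 := integral_mul_left_eq_self (μ := haarU (Fin n)) (fun U => f (U * W⁻¹)) W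
  rw [h1]
  exact integral_mul_right_eq_self (μ := haarU (Fin n)) f W⁻¹

/-- the functional is unitarily invariant -/
theorem F_conj {d : ℕ} (t : ℕ) (W : Matrix.unitaryGroup (Fin d) ℂ) (X : Mat d) :
    F d t ((W : Mat d) * X * star (W : Mat d)) = F d t X := by
  unfold F
  congr 1
  rw [← int_conj W]
  refine integral_congr_ae (Filter.Eventually.of_forall fun U => ?_)
  have hW : star (W : Mat d) * (W : Mat d) = 1 := Matrix.mem_unitaryGroup_iff'.1 W.2
  have e0 : ((W * U * W⁻¹ : Matrix.unitaryGroup (Fin d) ℂ) : Mat d) =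
      (W : Mat d) * (U : Mat d) * star (W : Mat d) := rfl
  have e1 : Matrix.trace ((W : Mat d) * (U : Mat d) * star (W : Mat d)) =
      Matrix.trace (U : Mat d) := by
    rw [Matrix.trace_mul_comm, ← Matrix.mul_assoc, hW, Matrix.one_mul]
  have e2 : Matrix.trace ((W : Mat d) * X * star (W : Mat d) *
      ((W : Mat d) * (U : Mat d) * star (W : Mat d))ᴴ) = Matrix.trace (X * (U : Mat d)ᴴ) := by
    rw [Matrix.conjTranspose_mul, Matrix.conjTranspose_mul, Matrix.star_eq_conjTranspose,
      Matrix.conjTranspose_conjTranspose]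
    rw [Matrix.star_eq_conjTranspose] at hW
    have e3 : (W : Mat d) * X * (W : Mat d)ᴴ * ((W : Mat d) * ((U : Mat d)ᴴ * (W : Mat d)ᴴ)) =
        (W : Mat d) * (X * (U : Mat d)ᴴ * (W : Mat d)ᴴ) := by
      calc _ = (W : Mat d) * X * ((W : Mat d)ᴴ * (W : Mat d)) * ((U : Mat d)ᴴ * (W : Mat d)ᴴ) := by
            simp only [Matrix.mul_assoc]
        _ = _ := by rw [hW, Matrix.mul_one]; simp only [Matrix.mul_assoc]
    rw [e3, Matrix.trace_mul_comm, Matrix.mul_assoc, hW, Matrix.mul_one]
  show (Matrix.trace ((W * U * W⁻¹ : Matrix.unitaryGroup (Fin d) ℂ) : Mat d)) ^ t *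
    (Matrix.trace ((W : Mat d) * X * star (W : Mat d) *
      ((W * U * W⁻¹ : Matrix.unitaryGroup (Fin d) ℂ) : Mat d)ᴴ)) ^ t = _
  rw [e0, e1, e2]

/-- **DIAG** -/
theorem t_DIAG : S_DIAG := by
  intro t X hX htr
  have hH := hX.isHermitian
  have hsp := hH.spectral_theorem
  refine ⟨hH.eigenvalues 0, hH.eigenvalues 1, hX.eigenvalues_nonneg 0, hX.eigenvalues_nonneg 1,
    ?_, ?_⟩
  · have h1 := hH.trace_eq_sum_eigenvalues
    rw [htr, Fin.sum_univ_two] at h1
    have h2 := congrArg Complex.re h1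
    simp at h2
    linarith
  · have h2 : Matrix.diagonal (RCLike.ofReal ∘ hH.eigenvalues) =
        Matrix.diagonal ![((hH.eigenvalues 0 : ℝ) : ℂ), ((hH.eigenvalues 1 : ℝ) : ℂ)] := by
      congr 1
      funext i
      fin_cases i <;> rfl
    have h3 := F_conj t hH.eigenvectorUnitary
      (Matrix.diagonal ![((hH.eigenvalues 0 : ℝ) : ℂ), ((hH.eigenvalues 1 : ℝ) : ℂ)])
    rw [← h3, ← h2]
    congr 1

end Pool.Agent.J4H89.QB
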