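import Pool.Agent.J4H61.QB.Stm3

/-! # Project QB (helper61), piece AVG (helper89): linear functionals on the image of a product -/

set_option autoImplicit false

open Matrix MeasureTheory
open scoped ComplexOrder ComplexConjugate

namespace Pool.Agent.J4H89.QB

open Pool.Agent.V11219.MomentOp Pool.Agent.J4H61.QB

/-- real linear functionals on matrices -/
theorem g_eq {ι : Type} [Fintype ι] [DecidableEq ι] (g : Matrix ι ι ℂ →ₗ[ℝ] ℝ) (M : Matrix ι ι ℂ) :
    g M = ∑ k, ∑ l, ((M k l).re * g (Matrix.single k l 1) +
      (M k l).im * g (Matrix.single k l Complex.I)) := by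
  conv_lhs => rw [Matrix.matrix_eq_sum_single M]
  simp only [map_sum]
  refine Finset.sum_congr rfl fun k _ => Finset.sum_congr rfl fun l _ => ?_
  have h1 : Matrix.single k l (M k l) = (M k l).re • Matrix.single k l (1 : ℂ) +
      (M k l).im • Matrix.single k l Complex.I := by
    rw [Matrix.smul_single, Matrix.smul_single, ← Matrix.single_add]
    congr 1
    apply Complex.ext <;> simp
  rw [h1, map_add, map_smul, map_smul, smul_eq_mul, smul_eq_mul]

theorem cont_dil {d dE : ℕ} (ψ : Fin dE → ℂ) (X : Mat d) (k l : Fin d) :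
    Continuous fun V : Matrix.unitaryGroup (Fin d × Fin dE) ℂ =>
      dilated ψ (V : Matrix (Fin d × Fin dE) (Fin d × Fin dE) ℂ) X k l := by
  have hV : Continuous fun V : Matrix.unitaryGroup (Fin d × Fin dE) ℂ =>
      (V : Matrix (Fin d × Fin dE) (Fin d × Fin dE) ℂ) := continuous_subtype_val
  simp only [dilated, LinearMap.coe_mk, AddHom.coe_mk, Matrix.of_apply]
  refine continuous_finsetSum _ fun x _ => ?_
  exact ((hV.matrix_mul continuous_const).matrix_mul hV.matrix_conjTranspose).matrix_elem _ _

theorem cont_pw {d dE : ℕ} (t : ℕ) (ψ : Fin dE → ℂ) (X : Mat d) (k l : Fin t → Fin d) :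
    Continuous fun V : Matrix.unitaryGroup (Fin d × Fin dE) ℂ =>
      pw t (dilated ψ (V : Matrix (Fin d × Fin dE) (Fin d × Fin dE) ℂ) X) k l := by
  simp only [pw, Matrix.of_apply]
  exact continuous_finsetProd _ fun s _ => cont_dil ψ X _ _

/-- **AVG** -/
theorem t_AVG : S_PWC → S_DPS → S_AVG := by
  intro hP hD t d dE ψ hψ g h hg X hX htr
  set f : Matrix.unitaryGroup (Fin d × Fin dE) ℂ → MatT d t := fun V =>
    pw t (dilated ψ (V : Matrix (Fin d × Fin dE) (Fin d × Fin dE) ℂ) X) with hf
  have hle : ∀ V, g (f V) ≤ h := by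
    intro V
    obtain ⟨h1, h2⟩ := hD d dE ψ hψ V X hX
    exact hg _ h1 (h2.trans htr)
  have hc : ∀ k l, Continuous fun V => f V k l := fun k l => cont_pw t ψ X k l
  have hi : ∀ k l, Integrable (fun V => f V k l) (haarU (Fin d × Fin dE)) := fun k l =>
    (hc k l).integrable_of_hasCompactSupport (HasCompactSupport.of_compactSpace _)
  have hre : ∀ k l, (cOp t d dE ψ (pw t X) k l).re =
      ∫ V, (f V k l).re ∂(haarU (Fin d × Fin dE)) := by
    intro k l
    rw [hP]
    exact (Complex.reCLM.integral_comp_comm (hi k l)).symm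
  have him : ∀ k l, (cOp t d dE ψ (pw t X) k l).im =
      ∫ V, (f V k l).im ∂(haarU (Fin d × Fin dE)) := by
    intro k l
    rw [hP]
    exact (Complex.imCLM.integral_comp_comm (hi k l)).symm
  have hir : ∀ k l, Integrable (fun V => (f V k l).re) (haarU (Fin d × Fin dE)) := fun k l =>
    (hi k l).re
  have hii : ∀ k l, Integrable (fun V => (f V k l).im) (haarU (Fin d × Fin dE)) := fun k l =>
    (hi k l).im
  have ha : ∀ k l, Integrable (fun V => (f V k l).re * g (Matrix.single k l 1) +
      (f V k l).im * g (Matrix.single k l Complex.I)) (haarU (Fin d × Fin dE)) := fun k l =>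
    ((hir k l).mul_const _).add ((hii k l).mul_const _)
  have hb : ∀ k, Integrable (fun V => ∑ l, ((f V k l).re * g (Matrix.single k l 1) +
      (f V k l).im * g (Matrix.single k l Complex.I))) (haarU (Fin d × Fin dE)) := fun k =>
    integrable_finsetSum _ fun l _ => ha k l
  have hint : g (cOp t d dE ψ (pw t X)) = ∫ V, g (f V) ∂(haarU (Fin d × Fin dE)) := by
    rw [g_eq g]
    simp only [g_eq g (f _)]
    rw [integral_finsetSum _ fun k _ => hb k]
    refine Finset.sum_congr rfl fun k _ => ?_
    rw [integral_finsetSum _ fun l _ => ha k l]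
    refine Finset.sum_congr rfl fun l _ => ?_
    rw [integral_add ((hir k l).mul_const _) ((hii k l).mul_const _), integral_mul_const,
      integral_mul_const, hre, him]
  have hgi : Integrable (fun V => g (f V)) (haarU (Fin d × Fin dE)) := by
    simp only [g_eq g (f _)]
    exact integrable_finsetSum _ fun k _ => hb k
  rw [hint]
  have h1 := integral_mono hgi (integrable_const h) hle
  refine h1.trans ?_
  simp

end Pool.Agent.J4H89.QB
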