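import Pool.Agent.J4H89.QB.Tor
import Pool.Agent.J4H89.QB.Diag

/-! # Project QB (helper61): QUB from TOR, DIAG and NUM (helper89) -/

set_option autoImplicit false

open Matrix MeasureTheory
open scoped ComplexOrder ComplexConjugate

namespace Pool.Agent.J4H89.QB

open Pool.Agent.V11219.MomentOp Pool.Agent.J4H61.QB

/-- **QUB** -/
theorem t_QUB : S_NUM → S_QUB := by
  intro hN t X hX htr
  obtain ⟨x, y, hx, hy, hxy, hF⟩ := t_DIAG t X hX htr
  have h1 : (1 : Mat 2) = Matrix.diagonal ![((1 : ℝ) : ℂ), ((1 : ℝ) : ℂ)] := by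
    ext i j
    fin_cases i <;> fin_cases j <;> simp
  rw [hF, h1, t_TOR, t_TOR]
  refine mul_le_mul_of_nonneg_left ?_ (integral_nonneg fun U => by positivity)
  have h2 := hN t x y hx hy hxy
  simpa using h2

/-- **KS1** -/
theorem t_KS1 : S_KRS → S_KRD → S_KSA → S_KS1 := by
  intro h1 h2 h3 t d dE ψ hψ
  refine h3 t d dE ψ fun V => ?_
  obtain ⟨K, hK1, hK2⟩ := h2 t d dE ψ hψ V
  exact h1 d t dE K hK1 _ hK2

/-- **NRM** -/
theorem t_NRM : S_HSN → S_AE → S_KST → S_EZ → S_NRM := by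
  intro h1 h2 h3 h4 d t A hA hU
  rw [h1 d t A]
  have h5 : ∀ k l : Fin t → Fin d, (Matrix.trace ((adj A (Matrix.single k l 1))ᴴ *
      adj A (Matrix.single k l 1))).re ≤
      (Matrix.trace ((A 1)ᴴ * ((Ebar d t k l)ᴴ * Ebar d t k l))).re := by
    intro k l
    rw [h2 d t A hU k l]
    exact h3 d t A hA _
  refine (Finset.sum_le_sum fun k _ => Finset.sum_le_sum fun l _ => h5 k l).trans (le_of_eq ?_)
  rw [← h4 d t]
  simp only [Matrix.mul_sum, Matrix.trace_sum, Complex.re_sum]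

end Pool.Agent.J4H89.QB
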