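import Pool.Agent.J4H61.QB.Stm4

set_option autoImplicit false

/-! (RAD): the radial part, conjugation with the Vandermonde polynomial. -/

namespace Pool.Agent.J4H89.QB.Rad
open MvPolynomial Finset

variable {d : ℕ}

/-- the Euler operator of one variable -/
noncomputable def th (i : Fin d) (g : MvPolynomial (Fin d) ℂ) : MvPolynomial (Fin d) ℂ :=
  X i * pderiv i g

theorem th_mul (i : Fin d) (a b : MvPolynomial (Fin d) ℂ) :
    th i (a * b) = a * th i b + b * th i a := by
  unfold th; rw [pderiv_mul]; ring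

theorem th_add (i : Fin d) (a b : MvPolynomial (Fin d) ℂ) :
    th i (a + b) = th i a + th i b := by
  unfold th; rw [map_add]; ring

theorem th_coeff (i : Fin d) (g : MvPolynomial (Fin d) ℂ) (m : Fin d →₀ ℕ) :
    coeff m (th i g) = (m i : ℂ) * coeff m g := by
  induction g using MvPolynomial.induction_on' with
  | monomial u a =>
    unfold th
    rw [X_mul_pderiv_monomial, coeff_smul, coeff_monomial]
    split_ifs with h
    · subst h; simp
    · simp
  | add p q hp hq => rw [th_add, coeff_add, hp, hq, coeff_add]; ring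

theorem ext_th {g h : MvPolynomial (Fin d) ℂ} (H : ∀ m, coeff m g = coeff m h) : g = h :=
  MvPolynomial.ext _ _ H

/-- a polynomial all whose exponents satisfy an equation -/
theorem van_coeff (m : Fin d →₀ ℕ) (h : coeff m (∏ i : Fin d, ∏ j ∈ Ioi i, ((X i : MvPolynomial (Fin d) ℂ) - X j)) ≠ 0) :
    ∃ σ : Equiv.Perm (Fin d), ∀ i, m i = (σ i : ℕ) := by
  have e1 : (∏ i : Fin d, ∏ j ∈ Ioi i, ((X i : MvPolynomial (Fin d) ℂ) - X j)) =
      (∏ i : Fin d, ∏ j ∈ Ioi i, (-1 : MvPolynomial (Fin d) ℂ)) *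
        (Matrix.vandermonde (fun i : Fin d => (X i : MvPolynomial (Fin d) ℂ))).det := by
    rw [Matrix.det_vandermonde, ← Finset.prod_mul_distrib]
    refine Finset.prod_congr rfl fun i _ => ?_
    rw [← Finset.prod_mul_distrib]
    refine Finset.prod_congr rfl fun j _ => ?_
    ring
  have e2 : (∏ i : Fin d, ∏ j ∈ Ioi i, (-1 : MvPolynomial (Fin d) ℂ)) =
      C (∏ i : Fin d, ∏ j ∈ Ioi i, (-1 : ℂ)) := by
    simp [map_prod]
  rw [e1, e2, coeff_C_mul] at h
  have h2 := right_ne_zero_of_mul h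
  rw [Matrix.det_apply, coeff_sum] at h2
  obtain ⟨σ, -, hσ⟩ := Finset.exists_ne_zero_of_sum_ne_zero h2
  refine ⟨σ⁻¹, fun k => ?_⟩
  have e3 : ∏ i : Fin d, (Matrix.vandermonde (fun i : Fin d => (X i : MvPolynomial (Fin d) ℂ))) (σ i) i =
      monomial (Finsupp.equivFunOnFinite.symm fun k => ((σ⁻¹ k : Fin d) : ℕ)) 1 := by
    simp only [Matrix.vandermonde_apply]
    rw [monomial_eq, map_one, one_mul, Finsupp.prod_fintype _ _ (fun i => pow_zero _)]
    rw [← Equiv.prod_comp σ (fun k => X k ^ (Finsupp.equivFunOnFinite.symm (fun k => ((σ⁻¹ k : Fin d) : ℕ))) k)]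
    refine Finset.prod_congr rfl fun i _ => ?_
    simp
  rw [e3] at hσ
  have h5 : coeff m (monomial (Finsupp.equivFunOnFinite.symm fun k => ((σ⁻¹ k : Fin d) : ℕ)) (1 : ℂ)) ≠ 0 := by
    intro h0
    apply hσ
    rw [Units.smul_def, coeff_smul, h0, smul_zero]
  rw [coeff_monomial] at h5
  split_ifs at h5 with h6
  · rw [← h6]; rfl
  · exact absurd rfl h5

theorem sum_sq (d : ℕ) : (∑ i : Fin d, ((i : ℕ) : ℂ) ^ 2) - ((d : ℂ) - 1) * (∑ i : Fin d, ((i : ℕ) : ℂ)) +
    (d.choose 3 : ℂ) = 0 := by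
  have h1 : (∑ i : Fin d, ((i : ℕ) : ℂ)) = (d.choose 2 : ℂ) := by
    rw [Fin.sum_univ_eq_sum_range (fun i => (i : ℂ)) d]
    have := Finset.sum_range_id d
    induction d with
    | zero => simp
    | succ n ih => 
      rw [Finset.sum_range_succ, ih (Finset.sum_range_id n), Nat.choose_succ_succ' n 1]
      push_cast
      rw [Nat.choose_one_right]; ring
  have h2 : ∀ d : ℕ, (∑ i : Fin d, ((i : ℕ) : ℂ) ^ 2) = 2 * (d.choose 3 : ℂ) + (d.choose 2 : ℂ) := by
    intro d
    rw [Fin.sum_univ_eq_sum_range (fun i => (i : ℂ) ^ 2) d]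
    induction d with
    | zero => simp
    | succ n ih =>
      rw [Finset.sum_range_succ, ih, Nat.choose_succ_succ' n 2, Nat.choose_succ_succ' n 1]
      push_cast
      rw [Nat.choose_one_right]
      have h3 : (n : ℂ) ^ 2 = 2 * (n.choose 2 : ℂ) + n := by
        rw [Nat.cast_choose_two]; ring
      rw [h3]; ring
  have h4 : 3 * (d.choose 3 : ℂ) = ((d : ℂ) - 2) * (d.choose 2 : ℂ) := by
    rcases Nat.lt_or_ge d 2 with hd | hd
    · rw [Nat.choose_eq_zero_of_lt (by omega), Nat.choose_eq_zero_of_lt hd]; simp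
    · have := Nat.choose_succ_right_eq d 2
      have h5 : ((d.choose 3 * 3 : ℕ) : ℂ) = ((d.choose 2 * (d - 2) : ℕ) : ℂ) := by exact_mod_cast this
      push_cast [Nat.cast_sub hd] at h5
      linear_combination h5
  rw [h1, h2]
  linear_combination h4

/-- the product over a set of pairs -/
noncomputable def vP (P : Finset (Fin d × Fin d)) : MvPolynomial (Fin d) ℂ :=
  ∏ p ∈ P, (X p.1 - X p.2)

theorem cross (f : MvPolynomial (Fin d) ℂ) (g : Fin d × Fin d → MvPolynomial (Fin d) ℂ)
    (hg : ∀ p, (X p.1 - X p.2) * g p = X p.1 * th p.1 f - X p.2 * th p.2 f)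
    (P : Finset (Fin d × Fin d)) :
    ∑ k, th k (vP P) * th k f = vP P * ∑ p ∈ P, g p := by
  classical
  induction P using Finset.induction_on with
  | empty => simp [vP, th]
  | insert p P hp ih =>
    have e : vP (insert p P) = (X p.1 - X p.2) * vP P := by
      unfold vP; rw [Finset.prod_insert hp]
    have e2 : ∑ k, th k ((X p.1 : MvPolynomial (Fin d) ℂ) - X p.2) * th k f =
        X p.1 * th p.1 f - X p.2 * th p.2 f := by
      have : ∀ k, th k ((X p.1 : MvPolynomial (Fin d) ℂ) - X p.2) * th k f =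
          (if p.1 = k then X k * th k f else 0) - (if p.2 = k then X k * th k f else 0) := by
        intro k
        unfold th
        rw [map_sub, pderiv_X, pderiv_X, Pi.single_apply, Pi.single_apply]
        split_ifs <;> ring
      simp only [this, Finset.sum_sub_distrib]
      simp
    rw [Finset.sum_insert hp, e]
    have e3 : ∑ k, th k ((X p.1 - X p.2) * vP P) * th k f =
        (X p.1 - X p.2) * ∑ k, th k (vP P) * th k f +
          vP P * ∑ k, th k ((X p.1 : MvPolynomial (Fin d) ℂ) - X p.2) * th k f := by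
      rw [Finset.mul_sum, Finset.mul_sum, ← Finset.sum_add_distrib]
      refine Finset.sum_congr rfl fun k _ => ?_
      rw [th_mul]; ring
    rw [e3, ih, e2, ← hg p]
    ring


theorem sum_pairs (g : Fin d × Fin d → MvPolynomial (Fin d) ℂ)
    (hs : ∀ p : Fin d × Fin d, p.1 ≠ p.2 → g p.swap = g p) :
    ∑ i, ∑ j ∈ univ.erase i, g (i, j) =
      2 * ∑ p ∈ (univ : Finset (Fin d × Fin d)).filter (fun p => p.1 < p.2), g p := by
  have e1 : ∑ i, ∑ j ∈ univ.erase i, g (i, j) =
      ∑ p ∈ (univ : Finset (Fin d × Fin d)).filter (fun p => p.1 ≠ p.2), g p := by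
    rw [Finset.sum_filter, ← Finset.univ_product_univ, Finset.sum_product]
    refine Finset.sum_congr rfl fun i _ => ?_
    rw [← Finset.sum_filter]
    refine Finset.sum_congr ?_ fun _ _ => rfl
    ext j
    simp [eq_comm]
  have e2 : (univ : Finset (Fin d × Fin d)).filter (fun p => p.1 ≠ p.2) =
      (univ : Finset (Fin d × Fin d)).filter (fun p => p.1 < p.2) ∪
        (univ : Finset (Fin d × Fin d)).filter (fun p => p.2 < p.1) := by
    ext p
    simp only [mem_filter, mem_univ, true_and, mem_union]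
    exact ne_iff_lt_or_gt
  have e3 : Disjoint ((univ : Finset (Fin d × Fin d)).filter (fun p => p.1 < p.2))
      ((univ : Finset (Fin d × Fin d)).filter (fun p => p.2 < p.1)) := by
    rw [Finset.disjoint_left]
    intro p h1 h2
    simp only [mem_filter, mem_univ, true_and] at h1 h2
    exact lt_asymm h1 h2
  have e4 : ∑ p ∈ (univ : Finset (Fin d × Fin d)).filter (fun p => p.2 < p.1), g p =
      ∑ p ∈ (univ : Finset (Fin d × Fin d)).filter (fun p => p.1 < p.2), g p := by
    refine Finset.sum_nbij' Prod.swap Prod.swap ?_ ?_ ?_ ?_ ?_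
    · intro p hp
      simpa using hp
    · intro p hp
      simpa using hp
    · intro p _; simp
    · intro p _; simp
    · intro p hp
      simp only [mem_filter, mem_univ, true_and] at hp
      exact (hs p (ne_of_gt hp)).symm
  rw [e1, e2, Finset.sum_union e3, e4]
  ring

theorem vp_eq (d : ℕ) : (∏ i : Fin d, ∏ j ∈ Ioi i, ((X i : MvPolynomial (Fin d) ℂ) - X j)) =
    vP ((univ : Finset (Fin d × Fin d)).filter (fun p => p.1 < p.2)) := by
  unfold vP
  rw [Finset.prod_filter, ← Finset.univ_product_univ, Finset.prod_product]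
  refine Finset.prod_congr rfl fun i _ => ?_
  rw [← Finset.prod_filter]
  refine Finset.prod_congr ?_ fun _ _ => rfl
  ext j
  simp

theorem sum_one (m : Fin d →₀ ℕ) (a : ℂ) : ∑ i, (m i : ℂ) * a = (∑ i, (m i : ℂ)) * a := by
  rw [Finset.sum_mul]

theorem sum_two (m : Fin d →₀ ℕ) (a : ℂ) :
    ∑ i, (m i : ℂ) * ((m i : ℂ) * a) = (∑ i, (m i : ℂ) ^ 2) * a := by
  rw [Finset.sum_mul]
  exact Finset.sum_congr rfl fun i _ => by ring

theorem van_eq (d : ℕ) (V : MvPolynomial (Fin d) ℂ)
    (hV : V = ∏ i : Fin d, ∏ j ∈ Ioi i, ((X i : MvPolynomial (Fin d) ℂ) - X j)) :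
    ∑ i, th i (th i V) - C ((d : ℂ) - 1) * ∑ i, th i V + C (d.choose 3 : ℂ) * V = 0 := by
  refine ext_th fun m => ?_
  rw [coeff_add, coeff_sub, coeff_C_mul, coeff_C_mul, coeff_sum, coeff_sum, coeff_zero]
  simp only [th_coeff]
  have e : (∑ i, (m i : ℂ) * ((m i : ℂ) * coeff m V)) - ((d : ℂ) - 1) * (∑ i, (m i : ℂ) * coeff m V) +
      (d.choose 3 : ℂ) * coeff m V =
      ((∑ i, (m i : ℂ) ^ 2) - ((d : ℂ) - 1) * (∑ i, (m i : ℂ)) + (d.choose 3 : ℂ)) * coeff m V := by
    rw [sum_one m, sum_two m]; ring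
  rw [e]
  by_cases h : coeff m V = 0
  · rw [h, mul_zero]
  · rw [hV] at h
    obtain ⟨σ, hσ⟩ := van_coeff m h
    have e1 : (∑ i, (m i : ℂ) ^ 2) = ∑ i : Fin d, ((i : ℕ) : ℂ) ^ 2 := by
      rw [← Equiv.sum_comp σ (fun i : Fin d => ((i : ℕ) : ℂ) ^ 2)]
      exact Finset.sum_congr rfl fun i _ => by rw [hσ i]
    have e2 : (∑ i, (m i : ℂ)) = ∑ i : Fin d, ((i : ℕ) : ℂ) := by
      rw [← Equiv.sum_comp σ (fun i : Fin d => ((i : ℕ) : ℂ))]
      exact Finset.sum_congr rfl fun i _ => by rw [hσ i]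
    rw [e1, e2, sum_sq d, zero_mul]

theorem main (d : ℕ) (c : ℂ) (f V : MvPolynomial (Fin d) ℂ)
    (hV : V = ∏ i : Fin d, ∏ j ∈ Ioi i, ((X i : MvPolynomial (Fin d) ℂ) - X j))
    (s : Fin d → Fin d → MvPolynomial (Fin d) ℂ)
    (h1 : ∀ i j, (X i - X j) * s i j = pderiv i f - pderiv j f)
    (h2 : ∑ i, X i * pderiv i f = C c * f) (m : Fin d →₀ ℕ) :
    coeff m (V * ((∑ i, X i ^ 2 * pderiv i (pderiv i f)) +
      (∑ i, ∑ j ∈ Finset.univ.erase i, X i * X j * s i j) + C ((d : ℂ) * c) * f)) =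
    ((∑ i, ((m i : ℂ)) ^ 2) - ((d : ℂ) - 1) * (∑ i, (m i : ℂ)) + (d.choose 3 : ℂ)) *
      coeff m (V * f) := by
  classical
  have E1 := van_eq d V hV
  have E2 : ∑ i, th i (th i (V * f)) = f * ∑ i, th i (th i V) + 2 * ∑ i, th i V * th i f +
      V * ∑ i, th i (th i f) := by
    rw [Finset.mul_sum, Finset.mul_sum, Finset.mul_sum, ← Finset.sum_add_distrib,
      ← Finset.sum_add_distrib]
    refine Finset.sum_congr rfl fun i _ => ?_
    rw [th_mul, th_add, th_mul, th_mul]; ring
  have E3a : ∑ i, th i f = C c * f := h2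
  have E3 : ∑ i, th i (th i f) = (∑ i, X i ^ 2 * pderiv i (pderiv i f)) + C c * f := by
    rw [← E3a, ← Finset.sum_add_distrib]
    refine Finset.sum_congr rfl fun i _ => ?_
    unfold th
    rw [pderiv_mul, pderiv_X_self]; ring
  have E5 : ∑ i, th i (V * f) = f * ∑ i, th i V + V * ∑ i, th i f := by
    rw [Finset.mul_sum, Finset.mul_sum, ← Finset.sum_add_distrib]
    refine Finset.sum_congr rfl fun i _ => ?_
    rw [th_mul]; ring
  have hne : ∀ i j : Fin d, i ≠ j → (X i : MvPolynomial (Fin d) ℂ) - X j ≠ 0 := by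
    intro i j hij h
    exact hij (X_injective (sub_eq_zero.1 h))
  have hsym : ∀ i j : Fin d, i ≠ j → s j i = s i j := by
    intro i j hij
    have := h1 i j
    have h3 := h1 j i
    refine mul_left_cancel₀ (hne i j hij) ?_
    rw [this]
    linear_combination -h3
  have E4 : 2 * ∑ i, th i V * th i f = V * ((∑ i, ∑ j ∈ Finset.univ.erase i, X i * X j * s i j) +
      2 * ((C (d : ℂ) - 1) * (C c * f))) := by
    have hc := cross f (fun p => X p.1 * X p.2 * s p.1 p.2 + th p.1 f + th p.2 f) (by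
      intro p
      have := h1 p.1 p.2
      unfold th
      linear_combination (X p.1 * X p.2) * this) ((univ : Finset (Fin d × Fin d)).filter (fun p => p.1 < p.2))
    rw [← vp_eq, ← hV] at hc
    have hsp := sum_pairs (fun p => X p.1 * X p.2 * s p.1 p.2 + th p.1 f + th p.2 f) (by
      intro p hp
      simp only [Prod.fst_swap, Prod.snd_swap]
      rw [hsym p.1 p.2 hp]; ring)
    rw [hc]
    have e : 2 * (V * ∑ p ∈ (univ : Finset (Fin d × Fin d)).filter (fun p => p.1 < p.2),
        (X p.1 * X p.2 * s p.1 p.2 + th p.1 f + th p.2 f)) =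
        V * ∑ i, ∑ j ∈ univ.erase i, (X i * X j * s i j + th i f + th j f) := by
      rw [hsp]; ring
    rw [e]
    congr 1
    simp only [Finset.sum_add_distrib]
    have e1 : ∑ i, ∑ j ∈ univ.erase i, th i f = (C (d : ℂ) - 1) * (C c * f) := by
      rw [← E3a, Finset.mul_sum]
      refine Finset.sum_congr rfl fun i _ => ?_
      have hd : 1 ≤ d := by have := i.2; omega
      rw [Finset.sum_const, Finset.card_erase_of_mem (mem_univ i), Finset.card_univ, Fintype.card_fin,
        nsmul_eq_mul, Nat.cast_sub hd]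
      simp
    have e2 : ∑ i : Fin d, ∑ j ∈ univ.erase i, th j f = (C (d : ℂ) - 1) * (C c * f) := by
      have : ∀ i : Fin d, ∑ j ∈ univ.erase i, th j f = (C c * f) - th i f := by
        intro i
        rw [← E3a, ← Finset.add_sum_erase univ (fun i => th i f) (mem_univ i)]; ring
      simp only [this, Finset.sum_sub_distrib]
      rw [Finset.sum_const, Finset.card_univ, Fintype.card_fin, nsmul_eq_mul, E3a]
      simp only [map_natCast]
      ring
    rw [e1, e2]; ring
  have key : V * ((∑ i, X i ^ 2 * pderiv i (pderiv i f)) +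
      (∑ i, ∑ j ∈ Finset.univ.erase i, X i * X j * s i j) + C ((d : ℂ) * c) * f) =
      ∑ i, th i (th i (V * f)) - C ((d : ℂ) - 1) * ∑ i, th i (V * f) +
        C (d.choose 3 : ℂ) * (V * f) := by
    rw [E2, E5, E3, E3a, E4]
    simp only [map_mul, map_sub, map_one] at E1 ⊢
    linear_combination (-f) * E1
  rw [key, coeff_add, coeff_sub, coeff_C_mul, coeff_C_mul, coeff_sum, coeff_sum]
  simp only [th_coeff]
  rw [sum_one m, sum_two m]; ring

end Pool.Agent.J4H89.QB.Rad

namespace Pool.Agent.J4H89.QB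
open Pool.Agent.J4H61.QB

theorem t_RAD : S_RAD := by
  intro d c f s h1 h2 m
  exact Rad.main d c f (vp d) rfl s h1 h2 m

end Pool.Agent.J4H89.QB
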