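import Mathlib

/-! # Project QB (helper61), piece SD (helper89): comparison of coefficients -/

set_option autoImplicit false

open MeasureTheory Polynomial

namespace Pool.Agent.J4H89.QB.Sd

/-- all coefficients depend continuously on the point -/
def Cc {X : Type*} [TopologicalSpace X] (p : X → ℂ[X]) : Prop :=
  ∀ k, Continuous fun x => (p x).coeff k

theorem Cc.mul {X : Type*} [TopologicalSpace X] {p q : X → ℂ[X]} (hp : Cc p) (hq : Cc q) :
    Cc fun x => p x * q x := by
  intro k
  simp only [Polynomial.coeff_mul]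
  exact continuous_finsetSum _ fun i _ => (hp i.1).mul (hq i.2)

theorem Cc.pow {X : Type*} [TopologicalSpace X] {p : X → ℂ[X]} (hp : Cc p) (n : ℕ) :
    Cc fun x => p x ^ n := by
  induction n with
  | zero =>
    intro k
    simp only [pow_zero]
    exact continuous_const
  | succ n ih =>
    simp only [pow_succ]
    exact Cc.mul ih hp

theorem Cc.lin {X : Type*} [TopologicalSpace X] {a b : X → ℂ} (ha : Continuous a)
    (hb : Continuous b) : Cc fun x => C (a x) + C (b x) * (Polynomial.X : ℂ[X]) := by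
  intro k
  have : ∀ x, (C (a x) + C (b x) * (Polynomial.X : ℂ[X])).coeff k =
      a x * (if k = 0 then 1 else 0) + b x * (if 1 = k then 1 else 0) := by
    intro x
    rw [coeff_add, coeff_C, coeff_C_mul, coeff_X]
    split_ifs <;> simp
  simp only [this]
  fun_prop

theorem core {X : Type*} [TopologicalSpace X] [CompactSpace X] [MeasurableSpace X] [BorelSpace X]
    (μ : Measure X) [IsFiniteMeasure μ] (a b c e : X → ℂ) (ha : Continuous a) (hb : Continuous b)
    (hc : Continuous c) (he : Continuous e) (t : ℕ)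
    (H : ∀ z : ℂ, ‖z‖ = 1 → ∫ x, (a x + (z - 1) * b x) ^ (t + 1) *
      (c x + (z⁻¹ - 1) * e x) ^ (t + 1) ∂μ = ∫ x, a x ^ (t + 1) * c x ^ (t + 1) ∂μ) :
    ∫ x, a x ^ t * b x * c x ^ (t + 1) ∂μ = ∫ x, a x ^ (t + 1) * (c x ^ t * e x) ∂μ := by
  have hi : ∀ f : X → ℂ, Continuous f → Integrable f μ := fun f hf =>
    hf.integrable_of_hasCompactSupport (HasCompactSupport.of_compactSpace f)
  set p : X → ℂ[X] := fun x => (C (a x) + C (b x) * Polynomial.X) ^ (t + 1) *
    (C (c x) + C (c x - e x) * Polynomial.X) ^ (t + 1) with hp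
  have hpc : Cc p := ((Cc.lin ha hb).pow _).mul ((Cc.lin hc (hc.sub he)).pow _)
  have hdeg : ∀ x, (p x).natDegree < 2 * (t + 1) + 1 := by
    intro x
    have h1 : (C (a x) + C (b x) * (Polynomial.X : ℂ[X])).natDegree ≤ 1 := by compute_degree
    have h2 : (C (c x) + C (c x - e x) * (Polynomial.X : ℂ[X])).natDegree ≤ 1 := by compute_degree
    have h3 := natDegree_mul_le (p := (C (a x) + C (b x) * (Polynomial.X : ℂ[X])) ^ (t + 1))
      (q := (C (c x) + C (c x - e x) * (Polynomial.X : ℂ[X])) ^ (t + 1))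
    have h4 := natDegree_pow_le (p := C (a x) + C (b x) * (Polynomial.X : ℂ[X])) (n := t + 1)
    have h5 := natDegree_pow_le (p := C (c x) + C (c x - e x) * (Polynomial.X : ℂ[X])) (n := t + 1)
    have h6 : (t + 1) * (C (a x) + C (b x) * (Polynomial.X : ℂ[X])).natDegree ≤ (t + 1) * 1 :=
      Nat.mul_le_mul_left _ h1
    have h7 : (t + 1) * (C (c x) + C (c x - e x) * (Polynomial.X : ℂ[X])).natDegree ≤ (t + 1) * 1 :=
      Nat.mul_le_mul_left _ h2
    show ((C (a x) + C (b x) * (Polynomial.X : ℂ[X])) ^ (t + 1) *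
      (C (c x) + C (c x - e x) * (Polynomial.X : ℂ[X])) ^ (t + 1)).natDegree < _
    omega
  set I0 : ℂ := ∫ x, a x ^ (t + 1) * c x ^ (t + 1) ∂μ with hI0
  set Q : ℂ[X] := (∑ k ∈ Finset.range (2 * (t + 1) + 1), C (∫ x, (p x).coeff k ∂μ) *
    Polynomial.X ^ k) - (1 + Polynomial.X) ^ (t + 1) * C I0 with hQ
  have hev : ∀ z : ℂ, ‖z‖ = 1 → Q.eval (z - 1) = 0 := by
    intro z hz
    have hz0 : z ≠ 0 := by
      intro h; rw [h, norm_zero] at hz; exact zero_ne_one hz
    have e1 : Q.eval (z - 1) = (∫ x, (p x).eval (z - 1) ∂μ) - z ^ (t + 1) * I0 := by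
      rw [hQ]
      simp only [eval_sub, eval_mul, eval_pow, eval_add, eval_one, eval_X, eval_C, eval_finsetSum]
      congr 1
      · have : ∀ x, (p x).eval (z - 1) =
            ∑ k ∈ Finset.range (2 * (t + 1) + 1), (p x).coeff k * (z - 1) ^ k := fun x =>
          eval_eq_sum_range' (hdeg x) _
        simp only [this]
        have i0 : ∀ k ∈ Finset.range (2 * (t + 1) + 1),
            Integrable (fun x => (p x).coeff k * (z - 1) ^ k) μ :=
          fun k _ => hi _ ((hpc k).mul continuous_const)
        rw [integral_finsetSum _ i0]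
        refine Finset.sum_congr rfl fun k _ => ?_
        rw [integral_mul_const]
      · congr 2
        ring
    have e2 : ∀ x, (p x).eval (z - 1) = z ^ (t + 1) * ((a x + (z - 1) * b x) ^ (t + 1) *
      (c x + (z⁻¹ - 1) * e x) ^ (t + 1)) := by
      intro x
      have e3 : z * (c x + (z⁻¹ - 1) * e x) = c x + (c x - e x) * (z - 1) := by
        field_simp
        ring
      have e4 : (p x).eval (z - 1) = (a x + b x * (z - 1)) ^ (t + 1) *
          (c x + (c x - e x) * (z - 1)) ^ (t + 1) := by
        simp only [hp, eval_mul, eval_pow, eval_add, eval_C, eval_X]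
      rw [e4, ← e3, mul_pow]
      ring
    rw [e1]
    simp only [e2]
    rw [integral_const_mul, H z hz]
    ring
  have hQ0 : Q = 0 := by
    by_contra h0
    have hinf : Set.Infinite {w : ℂ | Q.IsRoot w} := by
      have h1 : Set.Infinite ((fun z : ℂ => z - 1) '' {z : ℂ | ‖z‖ = 1}) := by
        refine Set.Infinite.image (fun x _ y _ h => sub_left_injective h) ?_
        have h2 : Set.Infinite (Set.range fun θ : Set.Ioo (0:ℝ) 1 => Complex.exp (θ.1 * Complex.I)) := by
          have : Infinite (Set.Ioo (0:ℝ) 1) := (Set.Ioo_infinite zero_lt_one).to_subtype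
          refine Set.infinite_range_of_injective ?_
          intro x y hxy
          have h3 := Complex.exp_eq_exp_iff_exists_int.1 hxy
          obtain ⟨n, hn⟩ := h3
          have h4 : (x.1 : ℂ) * Complex.I = (y.1 + n * (2 * Real.pi) : ℝ) * Complex.I := by
            rw [hn]; push_cast; ring
          have h5 : (x.1 : ℂ) = ((y.1 + n * (2 * Real.pi) : ℝ) : ℂ) :=
            mul_right_cancel₀ Complex.I_ne_zero h4
          have h6 : x.1 = y.1 + n * (2 * Real.pi) := by exact_mod_cast h5
          have h7 : n = 0 := by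
            by_contra hn0
            have h8 : (1 : ℝ) ≤ |(n : ℝ)| := by
              exact_mod_cast Int.one_le_abs hn0
            have h9 : |x.1 - y.1| = |(n:ℝ)| * (2 * Real.pi) := by
              rw [h6, show y.1 + n * (2 * Real.pi) - y.1 = n * (2 * Real.pi) by ring, abs_mul,
                abs_of_pos Real.two_pi_pos]
            have h10 : |x.1 - y.1| < 1 := by
              rw [abs_lt]
              constructor <;> linarith [x.2.1, x.2.2, y.2.1, y.2.2]
            have h11 := Real.pi_gt_three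
            nlinarith
          rw [h7] at h6
          apply Subtype.ext
          simpa using h6
        refine h2.mono ?_
        rintro _ ⟨θ, rfl⟩
        exact Complex.norm_exp_ofReal_mul_I θ.1
      refine h1.mono ?_
      rintro _ ⟨z, hz, rfl⟩
      exact hev z hz
    exact hinf (Polynomial.finite_setOfPred_isRoot h0)
  have hc1 : Q.coeff 1 = 0 := by rw [hQ0, coeff_zero]
  have e5 : Q.coeff 1 = (∫ x, (p x).coeff 1 ∂μ) - (t + 1) * I0 := by
    rw [hQ, coeff_sub, finsetSum_coeff, Finset.sum_eq_single 1]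
    · rw [coeff_C_mul, coeff_X_pow, if_pos rfl, mul_one, coeff_mul_C, coeff_one_add_X_pow]
      simp
    · intro k _ hk
      rw [coeff_C_mul, coeff_X_pow, if_neg (Ne.symm hk), mul_zero]
    · intro h
      exfalso; apply h
      rw [Finset.mem_range]; omega
  have e6 : ∀ x, (p x).coeff 1 = (t + 1) * (a x ^ t * b x * c x ^ (t + 1)) +
      ((t + 1) * (a x ^ (t + 1) * c x ^ (t + 1)) - (t + 1) * (a x ^ (t + 1) * (c x ^ t * e x))) := by
    intro x
    have h1 : (p x).coeff 1 = (derivative (p x)).eval 0 := by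
      rw [← coeff_zero_eq_eval_zero, coeff_derivative]
      simp
    rw [h1, hp]
    simp only [derivative_mul, derivative_pow, derivative_add, derivative_C, derivative_X,
      eval_add, eval_mul, eval_pow, eval_C, eval_X, eval_natCast, map_natCast, Nat.add_sub_cancel]
    simp
    ring
  have i1 : Integrable (fun x => (t + 1) * (a x ^ t * b x * c x ^ (t + 1))) μ :=
    hi _ (by fun_prop)
  have i2 : Integrable (fun x => (t + 1) * (a x ^ (t + 1) * c x ^ (t + 1))) μ :=
    hi _ (by fun_prop)
  have i3 : Integrable (fun x => (t + 1) * (a x ^ (t + 1) * (c x ^ t * e x))) μ :=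
    hi _ (by fun_prop)
  have e7 : ∫ x, ((t + 1) * (a x ^ t * b x * c x ^ (t + 1)) +
      ((t + 1) * (a x ^ (t + 1) * c x ^ (t + 1)) -
        (t + 1) * (a x ^ (t + 1) * (c x ^ t * e x)))) ∂μ =
      (∫ x, (t + 1) * (a x ^ t * b x * c x ^ (t + 1)) ∂μ) +
      ((∫ x, (t + 1) * (a x ^ (t + 1) * c x ^ (t + 1)) ∂μ) -
        ∫ x, (t + 1) * (a x ^ (t + 1) * (c x ^ t * e x)) ∂μ) := by
    rw [← integral_sub i2 i3]
    exact integral_add i1 (i2.sub i3)
  simp only [e6] at e5
  rw [hc1, e7, integral_const_mul, integral_const_mul, integral_const_mul] at e5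
  have ht : ((t : ℂ) + 1) ≠ 0 := by exact_mod_cast Nat.succ_ne_zero t
  refine mul_left_cancel₀ ht ?_
  linear_combination -e5

end Pool.Agent.J4H89.QB.Sd
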