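import Pool.Agent.J4H61.QB.Stm4
import Pool.Agent.J4H89.QB.SdCore
import Pool.Agent.J4H89.QB.Diag

/-! # Project QB (helper61), piece SD (helper89): the Schwinger-Dyson equations

For a projection `P` of rank one and `|z| = 1` the matrix `1 + (z - 1) P` is unitary; the invariance
of the Haar measure gives an identity between polynomials in `z - 1`, whose linear coefficients are
the equations for `K = P`. The matrices `P` span. -/

set_option autoImplicit false

open Matrix MeasureTheory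
open scoped ComplexOrder ComplexConjugate

namespace Pool.Agent.J4H89.QB
open Pool.Agent.V11219.MomentOp Pool.Agent.J4H61.QB

/-- the unitary matrix `1 + (z - 1) P` -/
theorem proj_unitary {d : ℕ} (P : Mat d) (hP : P * P = P) (hPs : Pᴴ = P) (z : ℂ) (hz : ‖z‖ = 1) :
    (1 + (z - 1) • P) ∈ Matrix.unitaryGroup (Fin d) ℂ ∧
      (1 + (z - 1) • P)ᴴ = 1 + (z⁻¹ - 1) • P := by
  have hz1 : star z = z⁻¹ := by
    have h1 : z * star z = 1 := by
      have := Complex.mul_conj z
      rw [Complex.normSq_eq_norm_sq, hz] at this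
      simpa using this
    exact eq_inv_of_mul_eq_one_right h1
  have hz0 : z ≠ 0 := by
    intro h; rw [h, norm_zero] at hz; exact zero_ne_one hz
  have e1 : (1 + (z - 1) • P)ᴴ = 1 + (z⁻¹ - 1) • P := by
    rw [Matrix.conjTranspose_add, Matrix.conjTranspose_one, Matrix.conjTranspose_smul, hPs,
      star_sub, star_one, hz1]
  refine ⟨?_, e1⟩
  rw [Matrix.mem_unitaryGroup_iff, Matrix.star_eq_conjTranspose, e1]
  have e2 : (1 + (z - 1) • P) * (1 + (z⁻¹ - 1) • P) =
      1 + ((z - 1) + (z⁻¹ - 1) + (z - 1) * (z⁻¹ - 1)) • P := by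
    rw [add_mul, mul_add, mul_add, Matrix.one_mul, Matrix.one_mul, Matrix.mul_one,
      Matrix.smul_mul, Matrix.mul_smul, hP, smul_smul, add_smul, add_smul]
    abel
  rw [e2]
  have e3 : (z - 1) + (z⁻¹ - 1) + (z - 1) * (z⁻¹ - 1) = 0 := by
    field_simp
    ring
  rw [e3, zero_smul, add_zero]

theorem cont_tr {d : ℕ} (A : Mat d) :
    Continuous fun U : Matrix.unitaryGroup (Fin d) ℂ => Matrix.trace (A * (U : Mat d)) := by
  fun_prop

theorem cont_tr' {d : ℕ} (A : Mat d) :
    Continuous fun U : Matrix.unitaryGroup (Fin d) ℂ => Matrix.trace (A * (U : Mat d)ᴴ) := by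
  fun_prop

theorem cont_tr0 {d : ℕ} :
    Continuous fun U : Matrix.unitaryGroup (Fin d) ℂ => Matrix.trace (U : Mat d) := by
  fun_prop

theorem sd_proj {d : ℕ} (t : ℕ) (P B : Mat d) (hP : P * P = P) (hPs : Pᴴ = P) :
    (∫ U : Matrix.unitaryGroup (Fin d) ℂ, (Matrix.trace (U : Mat d)) ^ t *
      Matrix.trace (P * (U : Mat d)) * (Matrix.trace (B * (U : Mat d)ᴴ)) ^ (t + 1) ∂(haarU (Fin d)) =
    ∫ U : Matrix.unitaryGroup (Fin d) ℂ, (Matrix.trace (U : Mat d)) ^ (t + 1) *
      ((Matrix.trace (B * (U : Mat d)ᴴ)) ^ t * Matrix.trace (P * B * (U : Mat d)ᴴ)) ∂(haarU (Fin d))) ∧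
  (∫ U : Matrix.unitaryGroup (Fin d) ℂ, (Matrix.trace (U : Mat d)) ^ t *
      Matrix.trace (P * (U : Mat d)) * (Matrix.trace (B * (U : Mat d)ᴴ)) ^ (t + 1) ∂(haarU (Fin d)) =
    ∫ U : Matrix.unitaryGroup (Fin d) ℂ, (Matrix.trace (U : Mat d)) ^ (t + 1) *
      ((Matrix.trace (B * (U : Mat d)ᴴ)) ^ t * Matrix.trace (B * P * (U : Mat d)ᴴ)) ∂(haarU (Fin d))) := by
  constructor
  · refine Sd.core (haarU (Fin d)) (fun U => Matrix.trace (U : Mat d))
      (fun U => Matrix.trace (P * (U : Mat d))) (fun U => Matrix.trace (B * (U : Mat d)ᴴ))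
      (fun U => Matrix.trace (P * B * (U : Mat d)ᴴ)) cont_tr0 (cont_tr P) (cont_tr' B)
      (cont_tr' (P * B)) t ?_
    intro z hz
    obtain ⟨h1, h2⟩ := proj_unitary P hP hPs z hz
    have h3 := integral_mul_left_eq_self (μ := haarU (Fin d))
      (fun U : Matrix.unitaryGroup (Fin d) ℂ => Matrix.trace (U : Mat d) ^ (t + 1) *
        Matrix.trace (B * (U : Mat d)ᴴ) ^ (t + 1)) ⟨_, h1⟩
    rw [← h3]
    refine integral_congr_ae (Filter.Eventually.of_forall fun U => ?_)
    have e1 : Matrix.trace ((1 + (z - 1) • P) * (U : Mat d)) =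
        Matrix.trace (U : Mat d) + (z - 1) * Matrix.trace (P * (U : Mat d)) := by
      rw [add_mul, Matrix.one_mul, Matrix.smul_mul, Matrix.trace_add, Matrix.trace_smul,
        smul_eq_mul]
    have e2 : Matrix.trace (B * ((1 + (z - 1) • P) * (U : Mat d))ᴴ) =
        Matrix.trace (B * (U : Mat d)ᴴ) + (z⁻¹ - 1) * Matrix.trace (P * B * (U : Mat d)ᴴ) := by
      rw [Matrix.conjTranspose_mul, h2, mul_add, Matrix.mul_one, Matrix.mul_smul, mul_add,
        Matrix.mul_smul, Matrix.trace_add, Matrix.trace_smul, smul_eq_mul]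
      congr 2
      rw [← Matrix.mul_assoc, Matrix.trace_mul_comm, Matrix.mul_assoc]
    show _ = Matrix.trace ((1 + (z - 1) • P) * (U : Mat d)) ^ (t + 1) *
      Matrix.trace (B * ((1 + (z - 1) • P) * (U : Mat d))ᴴ) ^ (t + 1)
    rw [e1, e2]
  · refine Sd.core (haarU (Fin d)) (fun U => Matrix.trace (U : Mat d))
      (fun U => Matrix.trace (P * (U : Mat d))) (fun U => Matrix.trace (B * (U : Mat d)ᴴ))
      (fun U => Matrix.trace (B * P * (U : Mat d)ᴴ)) cont_tr0 (cont_tr P) (cont_tr' B)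
      (cont_tr' (B * P)) t ?_
    intro z hz
    obtain ⟨h1, h2⟩ := proj_unitary P hP hPs z hz
    have h3 := integral_mul_right_eq_self (μ := haarU (Fin d))
      (fun U : Matrix.unitaryGroup (Fin d) ℂ => Matrix.trace (U : Mat d) ^ (t + 1) *
        Matrix.trace (B * (U : Mat d)ᴴ) ^ (t + 1)) ⟨_, h1⟩
    rw [← h3]
    refine integral_congr_ae (Filter.Eventually.of_forall fun U => ?_)
    have e1 : Matrix.trace ((U : Mat d) * (1 + (z - 1) • P)) =
        Matrix.trace (U : Mat d) + (z - 1) * Matrix.trace (P * (U : Mat d)) := by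
      rw [mul_add, Matrix.mul_one, Matrix.mul_smul, Matrix.trace_add, Matrix.trace_smul,
        smul_eq_mul, Matrix.trace_mul_comm P]
    have e2 : Matrix.trace (B * ((U : Mat d) * (1 + (z - 1) • P))ᴴ) =
        Matrix.trace (B * (U : Mat d)ᴴ) + (z⁻¹ - 1) * Matrix.trace (B * P * (U : Mat d)ᴴ) := by
      rw [Matrix.conjTranspose_mul, h2, add_mul, Matrix.one_mul, Matrix.smul_mul, mul_add,
        Matrix.mul_smul, Matrix.trace_add, Matrix.trace_smul, smul_eq_mul, Matrix.mul_assoc]
    show _ = Matrix.trace ((U : Mat d) * (1 + (z - 1) • P)) ^ (t + 1) *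
      Matrix.trace (B * ((U : Mat d) * (1 + (z - 1) • P))ᴴ) ^ (t + 1)
    rw [e1, e2]

/-- a complex-linear functional on matrices which vanishes at the projections vanishes -/
theorem lin_zero {d : ℕ} (L : Mat d →ₗ[ℂ] ℂ) (h : ∀ P : Mat d, P * P = P → Pᴴ = P → L P = 0) :
    L = 0 := by
  have h1 : ∀ v : Fin d → ℂ, L (Matrix.vecMulVec v (star v)) = 0 := by
    intro v
    by_cases hv : star v ⬝ᵥ v = 0
    · have : v = 0 := by
        rwa [dotProduct_star_self_eq_zero] at hv
      rw [this]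
      have e : Matrix.vecMulVec (0 : Fin d → ℂ) (star (0 : Fin d → ℂ)) = 0 := by
        ext i j; simp [Matrix.vecMulVec]
      rw [e, map_zero]
    · set c : ℂ := star v ⬝ᵥ v with hc
      have hcs : star c = c := by
        rw [hc, ← Matrix.star_dotProduct]
      have e1 := h (c⁻¹ • Matrix.vecMulVec v (star v)) (by
        rw [Matrix.smul_mul, Matrix.mul_smul, Matrix.vecMulVec_mul_vecMulVec, ← hc, smul_smul]
        ext i j
        simp only [Matrix.smul_apply, Matrix.vecMulVec_apply, smul_eq_mul, Pi.smul_apply]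
        field_simp) (by
        rw [Matrix.conjTranspose_smul, star_inv₀, hcs]
        congr 1
        ext i j
        simp [Matrix.vecMulVec_apply, Matrix.conjTranspose_apply, mul_comm])
      rw [map_smul, smul_eq_mul] at e1
      rcases mul_eq_zero.1 e1 with h2 | h2
      · exact absurd (inv_eq_zero.1 h2) hv
      · exact h2
  have h2 : ∀ (u v : Fin d → ℂ) (w : ℂ),
      Matrix.vecMulVec (u + w • v) (star (u + w • v)) =
        Matrix.vecMulVec u (star u) + star w • Matrix.vecMulVec u (star v) +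
        w • Matrix.vecMulVec v (star u) + (w * star w) • Matrix.vecMulVec v (star v) := by
    intro u v w
    ext i j
    simp only [Matrix.vecMulVec_apply, Matrix.add_apply, Matrix.smul_apply,
      Pi.add_apply, Pi.smul_apply, Pi.star_apply, smul_eq_mul, star_add, star_mul']
    ring
  have h3 : ∀ (u v : Fin d → ℂ) (w : ℂ),
      star w * L (Matrix.vecMulVec u (star v)) + w * L (Matrix.vecMulVec v (star u)) = 0 := by
    intro u v w
    have e := h1 (u + w • v)
    rw [h2, map_add, map_add, map_add, h1, map_smul, map_smul, map_smul, h1, smul_eq_mul,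
      smul_eq_mul, smul_eq_mul] at e
    linear_combination e
  have h4 : ∀ u v : Fin d → ℂ, L (Matrix.vecMulVec u (star v)) = 0 := by
    intro u v
    have e1 := h3 u v 1
    have e2 := h3 u v Complex.I
    have e3 : star Complex.I = -Complex.I := Complex.conj_I
    rw [e3] at e2
    rw [star_one] at e1
    have h5 : Complex.I * Complex.I = -1 := Complex.I_mul_I
    linear_combination (1 / 2) * e1 + (Complex.I / 2) * e2 +
      (1 / 2) * (L (Matrix.vecMulVec u (star v)) - L (Matrix.vecMulVec v (star u))) * h5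
  refine LinearMap.ext fun K => ?_
  have e : K = ∑ a, ∑ b, K a b • Matrix.vecMulVec (Pi.single a 1 : Fin d → ℂ)
      (star (Pi.single b 1 : Fin d → ℂ)) := by
    ext i j
    simp [Matrix.sum_apply, Matrix.vecMulVec_apply, Pi.single_apply]
  rw [e, map_sum, LinearMap.zero_apply]
  refine Finset.sum_eq_zero fun a _ => ?_
  rw [map_sum]
  refine Finset.sum_eq_zero fun b _ => ?_
  rw [map_smul, h4, smul_zero]

theorem int_cont {d : ℕ} {f : Matrix.unitaryGroup (Fin d) ℂ → ℂ} (hf : Continuous f) :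
    Integrable f (haarU (Fin d)) :=
  hf.integrable_of_hasCompactSupport (HasCompactSupport.of_compactSpace f)

/-- integration as a linear functional of a parameter -/
noncomputable def Lf {d : ℕ} (f : Mat d → Matrix.unitaryGroup (Fin d) ℂ → ℂ)
    (hc : ∀ K, Continuous (f K)) (hadd : ∀ K K' U, f (K + K') U = f K U + f K' U)
    (hs : ∀ (c : ℂ) K U, f (c • K) U = c * f K U) : Mat d →ₗ[ℂ] ℂ where
  toFun K := ∫ U, f K U ∂(haarU (Fin d))
  map_add' K K' := by
    simp only [hadd]
    exact integral_add (int_cont (hc K)) (int_cont (hc K'))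
  map_smul' c K := by
    simp only [hs, RingHom.id_apply, smul_eq_mul]
    exact integral_const_mul _ _

theorem lin_int {d : ℕ} {f g : Mat d → Matrix.unitaryGroup (Fin d) ℂ → ℂ}
    (hf : ∀ K, Continuous (f K)) (hfa : ∀ K K' U, f (K + K') U = f K U + f K' U)
    (hfs : ∀ (c : ℂ) K U, f (c • K) U = c * f K U)
    (hg : ∀ K, Continuous (g K)) (hga : ∀ K K' U, g (K + K') U = g K U + g K' U)
    (hgs : ∀ (c : ℂ) K U, g (c • K) U = c * g K U)
    (h : ∀ P : Mat d, P * P = P → Pᴴ = P →
      ∫ U, f P U ∂(haarU (Fin d)) = ∫ U, g P U ∂(haarU (Fin d))) (K : Mat d) :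
    ∫ U, f K U ∂(haarU (Fin d)) = ∫ U, g K U ∂(haarU (Fin d)) := by
  have h1 := lin_zero (Lf f hf hfa hfs - Lf g hg hga hgs) (fun P hP hPs => by
    rw [LinearMap.sub_apply, sub_eq_zero]
    exact h P hP hPs)
  have h2 : (Lf f hf hfa hfs - Lf g hg hga hgs) K = 0 := by rw [h1, LinearMap.zero_apply]
  rw [LinearMap.sub_apply, sub_eq_zero] at h2
  exact h2

/-- the left side -/
noncomputable def fL {d : ℕ} (t : ℕ) (B K : Mat d) (U : Matrix.unitaryGroup (Fin d) ℂ) : ℂ :=
  (Matrix.trace (U : Mat d)) ^ t * Matrix.trace (K * (U : Mat d)) *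
    (Matrix.trace (B * (U : Mat d)ᴴ)) ^ (t + 1)

/-- the right side -/
noncomputable def fR {d : ℕ} (t : ℕ) (B K : Mat d) (U : Matrix.unitaryGroup (Fin d) ℂ) : ℂ :=
  (Matrix.trace (U : Mat d)) ^ (t + 1) *
    ((Matrix.trace (B * (U : Mat d)ᴴ)) ^ t * Matrix.trace (K * (U : Mat d)ᴴ))

theorem fL_cont {d : ℕ} (t : ℕ) (B K : Mat d) : Continuous (fL t B K) := by
  unfold fL; fun_prop

theorem fR_cont {d : ℕ} (t : ℕ) (B K : Mat d) : Continuous (fR t B K) := by
  unfold fR; fun_prop

theorem fL_add {d : ℕ} (t : ℕ) (B K K' : Mat d) (U : Matrix.unitaryGroup (Fin d) ℂ) :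
    fL t B (K + K') U = fL t B K U + fL t B K' U := by
  unfold fL
  rw [add_mul, Matrix.trace_add, mul_add, add_mul]

theorem fR_add {d : ℕ} (t : ℕ) (B K K' : Mat d) (U : Matrix.unitaryGroup (Fin d) ℂ) :
    fR t B (K + K') U = fR t B K U + fR t B K' U := by
  unfold fR
  rw [add_mul, Matrix.trace_add, mul_add, mul_add]

theorem fL_smul {d : ℕ} (t : ℕ) (B : Mat d) (c : ℂ) (K : Mat d)
    (U : Matrix.unitaryGroup (Fin d) ℂ) : fL t B (c • K) U = c * fL t B K U := by
  unfold fL
  rw [Matrix.smul_mul, Matrix.trace_smul, smul_eq_mul]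
  generalize Matrix.trace (U : Mat d) = x
  generalize Matrix.trace (K * (U : Mat d)) = y
  generalize Matrix.trace (B * (U : Mat d)ᴴ) = z
  ring

theorem fR_smul {d : ℕ} (t : ℕ) (B : Mat d) (c : ℂ) (K : Mat d)
    (U : Matrix.unitaryGroup (Fin d) ℂ) : fR t B (c • K) U = c * fR t B K U := by
  unfold fR
  rw [Matrix.smul_mul, Matrix.trace_smul, smul_eq_mul]
  generalize Matrix.trace (U : Mat d) = x
  generalize Matrix.trace (K * (U : Mat d)ᴴ) = y
  generalize Matrix.trace (B * (U : Mat d)ᴴ) = z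
  ring

theorem sd_left {d : ℕ} (t : ℕ) (K B : Mat d) :
    ∫ U, fL t B K U ∂(haarU (Fin d)) = ∫ U, fR t B (K * B) U ∂(haarU (Fin d)) := by
  refine lin_int (f := fun K => fL t B K) (g := fun K => fR t B (K * B)) (fun K => fL_cont t B K)
    (fun K K' U => fL_add t B K K' U) (fun c K U => fL_smul t B c K U)
    (fun K => fR_cont t B (K * B)) (fun K K' U => ?_) (fun c K U => ?_)
    (fun P hP hPs => (sd_proj t P B hP hPs).1) K
  · show fR t B ((K + K') * B) U = _
    rw [add_mul, fR_add]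
  · show fR t B ((c • K) * B) U = _
    rw [Matrix.smul_mul, fR_smul]

theorem sd_right {d : ℕ} (t : ℕ) (K B : Mat d) :
    ∫ U, fL t B K U ∂(haarU (Fin d)) = ∫ U, fR t B (B * K) U ∂(haarU (Fin d)) := by
  refine lin_int (f := fun K => fL t B K) (g := fun K => fR t B (B * K)) (fun K => fL_cont t B K)
    (fun K K' U => fL_add t B K K' U) (fun c K U => fL_smul t B c K U)
    (fun K => fR_cont t B (B * K)) (fun K K' U => ?_) (fun c K U => ?_)
    (fun P hP hPs => (sd_proj t P B hP hPs).2) K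
  · show fR t B (B * (K + K')) U = _
    rw [mul_add, fR_add]
  · show fR t B (B * (c • K)) U = _
    rw [Matrix.mul_smul, fR_smul]

/-- **SD** -/
theorem t_SD : S_SD := by
  intro d t K B
  exact ⟨sd_left t K B, sd_right t K B⟩

end Pool.Agent.J4H89.QB
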