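import Pool.Agent.J4H61.QB.Stm3

/-! # Project QB (helper61), piece TOR (helper89): the functional at diagonal matrices of size two -/

set_option autoImplicit false

open Matrix MeasureTheory
open scoped ComplexOrder ComplexConjugate

namespace Pool.Agent.J4H89.QB

open Pool.Agent.V11219.MomentOp Pool.Agent.J4H61.QB

theorem cont_entry {n : ℕ} (i j : Fin n) :
    Continuous fun U : Matrix.unitaryGroup (Fin n) ℂ => (U : Mat n) i j :=
  (continuous_subtype_val (p := fun M : Mat n => M ∈ Matrix.unitaryGroup (Fin n) ℂ)).matrix_elem i j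

theorem integ {n : ℕ} {f : Matrix.unitaryGroup (Fin n) ℂ → ℂ} (hf : Continuous f) :
    Integrable f (haarU (Fin n)) :=
  hf.integrable_of_hasCompactSupport (HasCompactSupport.of_compactSpace _)

/-- the diagonal entries of a unitary matrix of size two have the same absolute value -/
theorem norm_diag (U : Matrix.unitaryGroup (Fin 2) ℂ) :
    ‖(U : Mat 2) 1 1‖ = ‖(U : Mat 2) 0 0‖ := by
  have h1 : (U : Mat 2) * star (U : Mat 2) = 1 := Matrix.mem_unitaryGroup_iff.1 U.2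
  have h2 : star (U : Mat 2) * (U : Mat 2) = 1 := Matrix.mem_unitaryGroup_iff'.1 U.2
  have h3 := congrFun (congrFun h1 0) 0
  have h4 := congrFun (congrFun h2 1) 1
  simp only [Matrix.mul_apply, Fin.sum_univ_two, Matrix.star_apply, Matrix.one_apply_eq] at h3 h4
  have e : ∀ z : ℂ, z * star z = ((‖z‖ ^ 2 : ℝ) : ℂ) := fun z => by
    rw [Complex.star_def, Complex.mul_conj, Complex.normSq_eq_norm_sq]
  have e' : ∀ z : ℂ, star z * z = ((‖z‖ ^ 2 : ℝ) : ℂ) := fun z => by rw [mul_comm, e]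
  rw [e, e] at h3
  rw [e', e'] at h4
  have h5 : ‖(U : Mat 2) 0 0‖ ^ 2 + ‖(U : Mat 2) 0 1‖ ^ 2 = 1 := by exact_mod_cast h3
  have h6 : ‖(U : Mat 2) 0 1‖ ^ 2 + ‖(U : Mat 2) 1 1‖ ^ 2 = 1 := by exact_mod_cast h4
  have h7 : ‖(U : Mat 2) 1 1‖ ^ 2 = ‖(U : Mat 2) 0 0‖ ^ 2 := by linarith
  exact (sq_eq_sq₀ (norm_nonneg _) (norm_nonneg _)).1 h7

/-- the diagonal unitary matrix -/
noncomputable def dg (θ : ℝ) : Matrix.unitaryGroup (Fin 2) ℂ :=
  ⟨Matrix.diagonal ![Complex.exp ((θ : ℂ) * Complex.I), 1], by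
    rw [Matrix.mem_unitaryGroup_iff, Matrix.star_eq_conjTranspose, Matrix.diagonal_conjTranspose,
      Matrix.diagonal_mul_diagonal, ← Matrix.diagonal_one]
    congr 1
    funext i
    fin_cases i
    · show Complex.exp ((θ : ℂ) * Complex.I) * star (Complex.exp ((θ : ℂ) * Complex.I)) = 1
      rw [Complex.star_def, Complex.mul_conj, Complex.normSq_eq_norm_sq,
        Complex.norm_exp_ofReal_mul_I]
      simp
    · show (1 : ℂ) * star (1 : ℂ) = 1
      simp⟩

/-- the integrand -/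
noncomputable def fk (k l k' l' : ℕ) (U : Matrix.unitaryGroup (Fin 2) ℂ) : ℂ :=
  (U : Mat 2) 0 0 ^ k * (U : Mat 2) 1 1 ^ l * star ((U : Mat 2) 0 0) ^ k' *
    star ((U : Mat 2) 1 1) ^ l'

theorem cont_fk (k l k' l' : ℕ) : Continuous (fk k l k' l') := by
  unfold fk
  have h0 := cont_entry (n := 2) 0 0
  have h1 := cont_entry (n := 2) 1 1
  exact (((h0.pow k).mul (h1.pow l)).mul ((h0.star).pow k')).mul ((h1.star).pow l')

theorem int_ne {k l k' l' : ℕ} (h : k ≠ k') : ∫ U, fk k l k' l' U ∂(haarU (Fin 2)) = 0 := by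
  have hk : ((k : ℝ) - k') ≠ 0 := by
    rw [sub_ne_zero]
    exact_mod_cast h
  set θ : ℝ := Real.pi / ((k : ℝ) - k') with hθ
  have h1 := integral_mul_left_eq_self (μ := haarU (Fin 2)) (fk k l k' l') (dg θ)
  have h2 : ∀ U, fk k l k' l' (dg θ * U) = - fk k l k' l' U := by
    intro U
    have e0 : ((dg θ * U : Matrix.unitaryGroup (Fin 2) ℂ) : Mat 2) 0 0 =
        Complex.exp ((θ : ℂ) * Complex.I) * (U : Mat 2) 0 0 := by
      show (Matrix.diagonal ![Complex.exp ((θ : ℂ) * Complex.I), 1] * (U : Mat 2)) 0 0 = _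
      rw [Matrix.diagonal_mul]
      rfl
    have e1 : ((dg θ * U : Matrix.unitaryGroup (Fin 2) ℂ) : Mat 2) 1 1 = (U : Mat 2) 1 1 := by
      show (Matrix.diagonal ![Complex.exp ((θ : ℂ) * Complex.I), 1] * (U : Mat 2)) 1 1 = _
      rw [Matrix.diagonal_mul]
      simp
    unfold fk
    rw [e0, e1, mul_pow, star_mul', mul_pow]
    have e2 : Complex.exp ((θ : ℂ) * Complex.I) ^ k *
        star (Complex.exp ((θ : ℂ) * Complex.I)) ^ k' = -1 := by
      rw [Complex.star_def, ← Complex.exp_conj, ← Complex.exp_nat_mul, ← Complex.exp_nat_mul,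
        ← Complex.exp_add]
      have e3 : (k : ℂ) * ((θ : ℂ) * Complex.I) +
          (k' : ℂ) * (starRingEnd ℂ) ((θ : ℂ) * Complex.I) = (Real.pi : ℂ) * Complex.I := by
        rw [map_mul, Complex.conj_ofReal, Complex.conj_I]
        have e4 : (((k : ℝ) - k') * θ : ℝ) = Real.pi := by
          rw [hθ]
          field_simp
        rw [← e4]
        push_cast
        ring
      rw [e3, Complex.exp_pi_mul_I]
    calc _ = (Complex.exp ((θ : ℂ) * Complex.I) ^ k *
        star (Complex.exp ((θ : ℂ) * Complex.I)) ^ k') * ((U : Mat 2) 0 0 ^ k *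
          (U : Mat 2) 1 1 ^ l * star ((U : Mat 2) 0 0) ^ k' * star ((U : Mat 2) 1 1) ^ l') := by ring
      _ = _ := by rw [e2]; ring
  simp only [h2, integral_neg] at h1
  have h3 : (2 : ℂ) * ∫ U, fk k l k' l' U ∂(haarU (Fin 2)) = 0 := by
    linear_combination -h1
  simpa using h3

theorem int_eq {t k : ℕ} (hk : k ≤ t) : ∫ U, fk k (t - k) k (t - k) U ∂(haarU (Fin 2)) =
    ((∫ U : Matrix.unitaryGroup (Fin 2) ℂ, ‖(U : Mat 2) 0 0‖ ^ (2 * t) ∂(haarU (Fin 2)) : ℝ) : ℂ) := by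
  rw [← integral_complex_ofReal]
  refine integral_congr_ae (Filter.Eventually.of_forall fun U => ?_)
  show fk k (t - k) k (t - k) U = ((‖(U : Mat 2) 0 0‖ ^ (2 * t) : ℝ) : ℂ)
  have e : ∀ z : ℂ, z * star z = ((‖z‖ ^ 2 : ℝ) : ℂ) := fun z => by
    rw [Complex.star_def, Complex.mul_conj, Complex.normSq_eq_norm_sq]
  unfold fk
  calc _ = ((U : Mat 2) 0 0 * star ((U : Mat 2) 0 0)) ^ k *
        ((U : Mat 2) 1 1 * star ((U : Mat 2) 1 1)) ^ (t - k) := by
        rw [mul_pow, mul_pow]; ring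
    _ = _ := by
        rw [e, e, norm_diag U, ← pow_add, Nat.add_sub_cancel' hk]
        push_cast
        rw [← pow_mul]

/-- **TOR** -/
theorem t_TOR : S_TOR := by
  intro t x y
  unfold F
  have h1 : ∀ U : Matrix.unitaryGroup (Fin 2) ℂ,
      (Matrix.trace (U : Mat 2)) ^ t *
        (Matrix.trace (Matrix.diagonal ![(x : ℂ), (y : ℂ)] * (U : Mat 2)ᴴ)) ^ t =
      ∑ k ∈ Finset.range (t + 1), ∑ l ∈ Finset.range (t + 1),
        (((t.choose k : ℂ) * (t.choose l : ℂ) * (x : ℂ) ^ l * (y : ℂ) ^ (t - l)) *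
          fk k (t - k) l (t - l) U) := by
    intro U
    have e1 : Matrix.trace (U : Mat 2) = (U : Mat 2) 0 0 + (U : Mat 2) 1 1 := by
      rw [Matrix.trace_fin_two]
    have e2 : Matrix.trace (Matrix.diagonal ![(x : ℂ), (y : ℂ)] * (U : Mat 2)ᴴ) =
        (x : ℂ) * star ((U : Mat 2) 0 0) + (y : ℂ) * star ((U : Mat 2) 1 1) := by
      rw [Matrix.trace_fin_two, Matrix.diagonal_mul, Matrix.diagonal_mul]
      rfl
    rw [e1, e2, add_pow, add_pow, Finset.sum_mul]
    refine Finset.sum_congr rfl fun k _ => ?_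
    rw [Finset.mul_sum]
    refine Finset.sum_congr rfl fun l _ => ?_
    unfold fk
    rw [mul_pow, mul_pow]
    ring
  simp only [h1]
  rw [integral_finsetSum _ fun k _ => integrable_finsetSum _ fun l _ =>
    (integ (cont_fk _ _ _ _)).const_mul _]
  have h2 : ∀ k ∈ Finset.range (t + 1), ∫ U : Matrix.unitaryGroup (Fin 2) ℂ,
      ∑ l ∈ Finset.range (t + 1),
        (((t.choose k : ℂ) * (t.choose l : ℂ) * (x : ℂ) ^ l * (y : ℂ) ^ (t - l)) *
          fk k (t - k) l (t - l) U) ∂(haarU (Fin 2)) =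
      (((∫ U : Matrix.unitaryGroup (Fin 2) ℂ, ‖(U : Mat 2) 0 0‖ ^ (2 * t) ∂(haarU (Fin 2))) *
        ((t.choose k : ℝ) ^ 2 * x ^ k * y ^ (t - k)) : ℝ) : ℂ) := by
    intro k hk
    rw [integral_finsetSum _ fun l _ => (integ (cont_fk _ _ _ _)).const_mul _]
    rw [Finset.sum_eq_single k]
    · rw [integral_const_mul, int_eq (Nat.lt_succ_iff.1 (Finset.mem_range.1 hk))]
      push_cast
      ring
    · intro l _ hl
      rw [integral_const_mul, int_ne hl.symm, mul_zero]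
    · intro h
      exact absurd hk h
  rw [Finset.sum_congr rfl h2, ← Complex.ofReal_sum, Complex.ofReal_re, ← Finset.mul_sum]

end Pool.Agent.J4H89.QB
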